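import Mathlib
import Pool.Agent.Lib.MP_e1f7e2_al.Defs

set_option autoImplicit false

/-!
Project FA (MP_e1f7e2_al, Q2, n = 3, every field): definitions.  See `Paper.md`.
The free algebra is modelled by the monoid algebra of the free monoid.
-/

open MulOpposite

namespace Pool.Agent.Lib.MP_e1f7e2_al.FA

section

/-- words in the letters `0, .., n-1` -/
abbrev Wd (n : ℕ) : Type := FreeMonoid (Fin n)

/-- the free algebra `K⟨x_0, .., x_{n-1}⟩` -/
abbrev A (K : Type*) [Field K] (n : ℕ) : Type _ := MonoidAlgebra K (Wd n)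

/-- `A ⊗ A^op` -/
abbrev A2 (K : Type*) [Field K] (n : ℕ) : Type _ := MonoidAlgebra K (Wd n × (Wd n)ᵐᵒᵖ)

variable {K : Type*} [Field K] {n : ℕ}

/-- weight of a word -/
def wt (w : Fin n → ℝ) (u : Wd n) : ℝ := (u.toList.map w).sum

/-- weight of a pair of words -/
def wt2 (w : Fin n → ℝ) (p : Wd n × (Wd n)ᵐᵒᵖ) : ℝ := wt w p.1 + wt w p.2.unop

/-- generic weights: positive, words of the same weight have the same letters -/
structure Gen (w : Fin n → ℝ) : Prop where
  pos : ∀ i, 0 < w i
  perm : ∀ u v : Wd n, wt w u = wt w v → u.toList.Perm v.toList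

/-- degree of an element of a monoid algebra with respect to `ω` (`0` for the zero element) -/
noncomputable def dgr {G : Type*} (ω : G → ℝ) (f : MonoidAlgebra K G) : ℝ :=
  if h : f.coeff.support.Nonempty then f.coeff.support.sup' h ω else 0

/-- the part of `f` of weight `r` -/
noncomputable def cmp {G : Type*} (ω : G → ℝ) (r : ℝ) (f : MonoidAlgebra K G) :
    MonoidAlgebra K G :=
  MonoidAlgebra.ofCoeff (f.coeff.filter (fun u => ω u = r))

/-- weighted degree in the free algebra -/
noncomputable def dg (w : Fin n → ℝ) (f : A K n) : ℝ := dgr (wt w) f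

/-- weighted degree in `A ⊗ A^op` -/
noncomputable def dg2 (w : Fin n → ℝ) (T : A2 K n) : ℝ := dgr (wt2 w) T

/-- top part -/
noncomputable def top (w : Fin n → ℝ) (f : A K n) : A K n := cmp (wt w) (dg w f) f

/-- top part in `A ⊗ A^op` -/
noncomputable def top2 (w : Fin n → ℝ) (T : A2 K n) : A2 K n := cmp (wt2 w) (dg2 w T) T

/-- the letter `x i` -/
noncomputable def xx (i : Fin n) : A K n := MonoidAlgebra.single (FreeMonoid.of i) 1

/-- substitution `x i ↦ F i` (values in any algebra) -/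
noncomputable def evl {B : Type*} [Ring B] [Algebra K B] (F : Fin n → B) : A K n →ₐ[K] B :=
  MonoidAlgebra.lift K B (Wd n) (FreeMonoid.lift F)

/-- `P(f, g)` -/
noncomputable def ev (P : A K 2) (f g : A K n) : A K n := evl ![f, g] P

/-- `f ⊗ 1` -/
noncomputable def inl : A K n →ₐ[K] A2 K n :=
  evl (fun i => MonoidAlgebra.single (FreeMonoid.of i, 1) 1)

/-- `1 ⊗ f`, as an antihomomorphism -/
noncomputable def inrop : A K n →ₐ[K] (A2 K n)ᵐᵒᵖ :=
  evl (fun i => op (MonoidAlgebra.single (1, op (FreeMonoid.of i)) 1))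

/-- `1 ⊗ f`; `inr (f * g) = inr g * inr f` -/
noncomputable def inr (f : A K n) : A2 K n := (inrop f).unop

/-- `f ⊗ g` -/
noncomputable def tn (f g : A K n) : A2 K n := inl f * inr g

/-- `δ(f) = f ⊗ 1 - 1 ⊗ f` -/
noncomputable def dl (f : A K n) : A2 K n := inl f - inr f

/-- the derivative `D_i` of a word: the sum of `u ⊗ v` over all ways to write the word as `u x_i v` -/
noncomputable def dw (i : Fin n) : List (Fin n) → A2 K n
  | [] => 0
  | j :: u => (if j = i then MonoidAlgebra.single (1, op (FreeMonoid.ofList u)) 1 else 0) +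
      MonoidAlgebra.single (FreeMonoid.of j, 1) 1 * dw i u

/-- the derivative `D_i : A → A ⊗ A^op` -/
noncomputable def dX (i : Fin n) (f : A K n) : A2 K n :=
  f.coeff.sum (fun u c => c • dw i u.toList)

/-- substitution in `A ⊗ A^op`: `u ⊗ v ↦ u(F) ⊗ v(F)` -/
noncomputable def evl2 {m : ℕ} (F : Fin m → A K n) (T : A2 K m) : A2 K n :=
  T.coeff.sum (fun p c => c • tn (evl F (MonoidAlgebra.single p.1 (1 : K)))
    (evl F (MonoidAlgebra.single p.2.unop (1 : K))))

/-- `E(f,g) = |fg - gf|` -/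
noncomputable def E (w : Fin n → ℝ) (f g : A K n) : ℝ := dg w (f * g - g * f)

/-- the defect `D(f,g) = |f| + |g| - E(f,g)` -/
noncomputable def Df (w : Fin n → ℝ) (f g : A K n) : ℝ := dg w f + dg w g - E w f g

/-- the subalgebra generated by `f, g` -/
noncomputable def B (f g : A K n) : Subalgebra K (A K n) := Algebra.adjoin K {f, g}

/-- tops commute (for nonconstant `f, g`) -/
def Com (w : Fin n → ℝ) (f g : A K n) : Prop := E w f g < dg w f + dg w g

/-- the top of `f` is a multiple of a power of the top of `g` (for nonconstant `f, g`) -/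
def Dv (w : Fin n → ℝ) (f g : A K n) : Prop :=
  ∃ (c : K) (k : ℕ), 1 ≤ k ∧ dg w (f - c • g ^ k) < dg w f

/-- nondivisible commuting pair -/
structure ND (w : Fin n → ℝ) (f g : A K n) : Prop where
  pf : 0 < dg w f
  pg : 0 < dg w g
  com : Com w f g
  nfg : ¬ Dv w f g
  ngf : ¬ Dv w g f

/-- good pair -/
structure Gd (w : Fin n → ℝ) (f g : A K n) : Prop where
  lmin : Df w f g < 3 / 2 * min (dg w f) (dg w g)
  lmax : Df w f g < max (dg w f) (dg w g)

/-- `span (1, f, g)` -/
noncomputable def lin (f g : A K n) : Submodule K (A K n) := Submodule.span K {1, f, g}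

/-- the vertex `⟨f, g, h⟩` -/
noncomputable def sp (f g h : A K n) : Submodule K (A K n) := Submodule.span K {1, f, g, h}

/-- frames: images of the generators under an automorphism -/
def Fr (f g h : A K 3) : Prop :=
  ∃ φ : A K 3 ≃ₐ[K] A K 3, φ (xx 0) = f ∧ φ (xx 1) = g ∧ φ (xx 2) = h

/-- vertices -/
def Vtx (V : Submodule K (A K 3)) : Prop := ∃ f g h : A K 3, Fr f g h ∧ V = sp f g h

/-- neighbours (they share the plane `lin f g`) -/
def Adj (V V' : Submodule K (A K 3)) : Prop :=
  ∃ f g h q : A K 3, Fr f g h ∧ q ∈ B f g ∧ V = sp f g h ∧ V' = sp f g (h + q)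

/-- sum of the weights -/
def sg (w : Fin 3 → ℝ) : ℝ := w 0 + w 1 + w 2

/-- degree of a vertex: minimal degree sum of a frame -/
noncomputable def vd (w : Fin 3 → ℝ) (V : Submodule K (A K 3)) : ℝ :=
  sInf {r : ℝ | ∃ f g h : A K 3, Fr f g h ∧ V = sp f g h ∧ r = dg w f + dg w g + dg w h}

/-- reducible vertices (the set `S` of the paper) -/
inductive Red (w : Fin 3 → ℝ) : Submodule K (A K 3) → Prop
  | base (V : Submodule K (A K 3)) (hV : Vtx V) (hd : vd w V ≤ sg w) : Red w V
  | step (V V' : Submodule K (A K 3)) (ha : Adj V V') (hd : vd w V' < vd w V) (hr : Red w V') :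
      Red w V

/-- good basis of a plane -/
def Or2 (w : Fin n → ℝ) (f g : A K n) : Prop :=
  ∀ a b c : K, (a ≠ 0 → dg w f ≤ dg w (a • f + b • g + c • 1)) ∧
    (b ≠ 0 → dg w g ≤ dg w (a • f + b • g + c • 1))

/-- good basis of a vertex -/
def Or3 (w : Fin n → ℝ) (f g h : A K n) : Prop :=
  ∀ a b c d : K, (a ≠ 0 → dg w f ≤ dg w (a • f + b • g + c • h + d • 1)) ∧
    (b ≠ 0 → dg w g ≤ dg w (a • f + b • g + c • h + d • 1)) ∧
    (c ≠ 0 → dg w h ≤ dg w (a • f + b • g + c • h + d • 1))

/-- `h` has minimal degree modulo `K⟨f,g⟩` -/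
def Mn (w : Fin n → ℝ) (h f g : A K n) : Prop := ∀ q ∈ B f g, dg w h ≤ dg w (h + q)

/-- induction hypothesis (A) below `ν` -/
def HA (K : Type*) [Field K] (w : Fin 3 → ℝ) (ν : ℝ) : Prop :=
  ∀ V V' : Submodule K (A K 3), vd w V < ν → Red w V → Adj V V' → Red w V'

/-- induction hypothesis (B) below `ν`: nondivisible planes are good -/
def HB (K : Type*) [Field K] (w : Fin 3 → ℝ) (ν : ℝ) : Prop :=
  ∀ f g h : A K 3, Fr f g h → vd w (sp f g h) < ν → Red w (sp f g h) → ND w f g → Gd w f g

end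

end Pool.Agent.Lib.MP_e1f7e2_al.FA
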