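import Pool.Agent.Lib.MP_e1f7e2_al.FA.Base

set_option autoImplicit false

/-!
Project FA (MP_e1f7e2_al): module statements, sections 1 - 6 of `Paper.md`.
`w` is generic (`Gen w`) in all modules.  Every module may assume the structures listed in the
column `uses` of the table `fa_modules` as hypotheses.
-/

open MulOpposite

namespace Pool.Agent.Lib.MP_e1f7e2_al.FA

/-! ## basic facts on degrees -/

/-- module DEG (any number of letters, `Gen w`) -/
structure DegFacts (K : Type*) [Field K] {n : ℕ} (w : Fin n → ℝ) : Prop where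
  nn : ∀ f : A K n, 0 ≤ dg w f
  zero : dg w (0 : A K n) = 0
  const : ∀ c : K, dg w (c • (1 : A K n)) = 0
  of_zero : ∀ f : A K n, dg w f = 0 → ∃ c : K, f = c • 1
  xx' : ∀ i, dg w (xx i : A K n) = w i
  neg : ∀ f : A K n, dg w (-f) = dg w f
  sub_comm : ∀ f g : A K n, dg w (f - g) = dg w (g - f)
  add_le : ∀ f g : A K n, dg w (f + g) ≤ max (dg w f) (dg w g)
  sub_le : ∀ f g : A K n, dg w (f - g) ≤ max (dg w f) (dg w g)
  add_right : ∀ f g : A K n, dg w f < dg w g → dg w (f + g) = dg w g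
  add_left : ∀ f g : A K n, dg w g < dg w f → dg w (f + g) = dg w f
  sub_left : ∀ f g : A K n, dg w g < dg w f → dg w (f - g) = dg w f
  sub_right : ∀ f g : A K n, dg w f < dg w g → dg w (f - g) = dg w g
  mul : ∀ f g : A K n, f ≠ 0 → g ≠ 0 → dg w (f * g) = dg w f + dg w g
  mul_le : ∀ f g : A K n, dg w (f * g) ≤ dg w f + dg w g
  pow : ∀ (f : A K n) (k : ℕ), dg w (f ^ k) = k * dg w f
  smul : ∀ (c : K) (f : A K n), c ≠ 0 → dg w (c • f) = dg w f
  smul_le : ∀ (c : K) (f : A K n), dg w (c • f) ≤ dg w f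
  sum_le : ∀ (ι : Type) (s : Finset ι) (f : ι → A K n) (r : ℝ), 0 ≤ r → (∀ i ∈ s, dg w (f i) ≤ r) →
    dg w (∑ i ∈ s, f i) ≤ r
  /-- degrees are weights of words -/
  val : ∀ f : A K n, ∃ u : Wd n, dg w f = wt w u
  /-- only finitely many weights below a bound -/
  fin : ∀ r : ℝ, {x : ℝ | x ≤ r ∧ ∃ u : Wd n, x = wt w u}.Finite
  /-- minimal elements exist -/
  minim : ∀ s : Set (A K n), s.Nonempty → ∃ f ∈ s, ∀ g ∈ s, dg w f ≤ dg w g
  /-- the algebra is a domain -/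
  dom : ∀ f g : A K n, f * g = 0 → f = 0 ∨ g = 0
  /-- degrees of univariate polynomial expressions -/
  poly : ∀ (g : A K n) (R : Polynomial K), 0 < dg w g →
    dg w (Polynomial.aeval g R) = R.natDegree * dg w g
  polyc : ∀ (g : A K n) (R : Polynomial K), R.natDegree = 0 →
    ∃ c : K, Polynomial.aeval g R = c • 1

/-- module DEGB (any number of letters, `Gen w`): degrees in `A ⊗ A^op` -/
structure DegbFacts (K : Type*) [Field K] {n : ℕ} (w : Fin n → ℝ) : Prop where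
  nn : ∀ f : A2 K n, 0 ≤ dg2 w f
  zero : dg2 w (0 : A2 K n) = 0
  const : ∀ c : K, dg2 w (c • (1 : A2 K n)) = 0
  of_zero : ∀ f : A2 K n, dg2 w f = 0 → ∃ c : K, f = c • 1
  neg : ∀ f : A2 K n, dg2 w (-f) = dg2 w f
  add_le : ∀ f g : A2 K n, dg2 w (f + g) ≤ max (dg2 w f) (dg2 w g)
  add_right : ∀ f g : A2 K n, dg2 w f < dg2 w g → dg2 w (f + g) = dg2 w g
  add_left : ∀ f g : A2 K n, dg2 w g < dg2 w f → dg2 w (f + g) = dg2 w f
  mul : ∀ f g : A2 K n, f ≠ 0 → g ≠ 0 → dg2 w (f * g) = dg2 w f + dg2 w g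
  smul : ∀ (c : K) (f : A2 K n), c ≠ 0 → dg2 w (c • f) = dg2 w f
  dom : ∀ f g : A2 K n, f * g = 0 → f = 0 ∨ g = 0
  inl' : ∀ f : A K n, dg2 w (inl f) = dg w f
  inr' : ∀ f : A K n, dg2 w (inr f) = dg w f
  inlinj : ∀ f : A K n, inl f = 0 → f = 0
  inrinj : ∀ f : A K n, inr f = 0 → f = 0
  tn' : ∀ f g : A K n, f ≠ 0 → g ≠ 0 → dg2 w (tn f g) = dg w f + dg w g
  comm : ∀ f g : A K n, inl f * inr g = inr g * inl f
  inrmul : ∀ f g : A K n, inr (f * g) = inr g * inr f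
  inradd : ∀ f g : A K n, inr (f + g) = inr f + inr g
  inrsmul : ∀ (c : K) (f : A K n), inr (c • f) = c • inr f
  inrone : inr (1 : A K n) = 1
  tnmul : ∀ f g f' g' : A K n, tn f g * tn f' g' = tn (f * f') (g' * g)
  dl' : ∀ f : A K n, dg2 w (dl f) = dg w f
  dl0 : ∀ f : A K n, dl f = 0 → ∃ c : K, f = c • 1
  dlc : ∀ c : K, dl (c • (1 : A K n)) = 0
  /-- coefficients of `f ⊗ g` -/
  cf : ∀ (f g : A K n) (u v : Wd n), (tn f g).coeff (u, op v) = f.coeff u * g.coeff v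
  /-- `1 ⊗ u + v ⊗ 1` -/
  two : ∀ u v : A K n, dg2 w (inr u + inl v) = max (dg w u) (dg w v)

/-- module CHAIN (any number of letters): the derivative and the chain rule -/
structure ChainFacts (K : Type*) [Field K] (n : ℕ) : Prop where
  add : ∀ (i : Fin n) (f g : A K n), dX i (f + g) = dX i f + dX i g
  smul : ∀ (i : Fin n) (c : K) (f : A K n), dX i (c • f) = c • dX i f
  one : ∀ i : Fin n, dX i (1 : A K n) = 0
  xx' : ∀ i j : Fin n, dX i (xx j : A K n) = if j = i then 1 else 0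
  mul : ∀ (i : Fin n) (f g : A K n), dX i (f * g) = inl f * dX i g + inr g * dX i f
  dlmul : ∀ f g : A K n, dl (f * g) = inl f * dl g + inr g * dl f
  chain : ∀ (i : Fin n) (P : A K 2) (f g : A K n), dX i (ev P f g) =
    evl2 ![f, g] (dX 0 P) * dX i f + evl2 ![f, g] (dX 1 P) * dX i g
  chaind : ∀ (P : A K 2) (f g : A K n), dl (ev P f g) =
    evl2 ![f, g] (dX 0 P) * dl f + evl2 ![f, g] (dX 1 P) * dl g
  e2add : ∀ (f g : A K n) (S T : A2 K 2),
    evl2 ![f, g] (S + T) = evl2 ![f, g] S + evl2 ![f, g] T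
  e2smul : ∀ (f g : A K n) (c : K) (S : A2 K 2), evl2 ![f, g] (c • S) = c • evl2 ![f, g] S
  e2tn : ∀ (f g : A K n) (U V : A K 2), evl2 ![f, g] (tn U V) = tn (ev U f g) (ev V f g)
  e2mul : ∀ (f g : A K n) (S T : A2 K 2),
    evl2 ![f, g] (S * T) = evl2 ![f, g] S * evl2 ![f, g] T
  /-- coefficients of the derivative: the word `u x_i v` -/
  cf : ∀ (i : Fin n) (f : A K n) (u v : Wd n),
    (dX i f).coeff (u, op v) = f.coeff (u * FreeMonoid.of i * v)
  /-- every element is a polynomial in the letters, `B f g` is the image of `ev` -/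
  bmem : ∀ (f g q : A K n), q ∈ B f g ↔ ∃ P : A K 2, q = ev P f g

/-- homogeneous elements -/
def Hom {K : Type*} [Field K] {n : ℕ} (w : Fin n → ℝ) (f : A K n) : Prop :=
  ∀ u ∈ f.coeff.support, wt w u = dg w f

/-- homogeneous elements of `A ⊗ A^op` -/
def Hom2 {K : Type*} [Field K] {n : ℕ} (w : Fin n → ℝ) (f : A2 K n) : Prop :=
  ∀ u ∈ f.coeff.support, wt2 w u = dg2 w f

/-- module TOP (any number of letters, `Gen w`): top parts -/
structure TopFacts (K : Type*) [Field K] {n : ℕ} (w : Fin n → ℝ) : Prop where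
  hom : ∀ f : A K n, Hom w (top w f)
  dgt : ∀ f : A K n, dg w (top w f) = dg w f
  ne : ∀ f : A K n, f ≠ 0 → top w f ≠ 0
  sub : ∀ f : A K n, 0 < dg w f → dg w (f - top w f) < dg w f
  mul : ∀ f g : A K n, f ≠ 0 → g ≠ 0 → top w (f * g) = top w f * top w g
  smul : ∀ (c : K) (f : A K n), top w (c • f) = c • top w f
  /-- the top is determined by the condition `|f - t| < |f|`, `t` homogeneous of degree `|f|` -/
  uniq : ∀ f t : A K n, 0 < dg w f → Hom w t → dg w t = dg w f → dg w (f - t) < dg w f →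
    top w f = t
  self : ∀ f : A K n, Hom w f → top w f = f
  lt : ∀ f g : A K n, 0 < dg w f → dg w f = dg w g → (dg w (f - g) < dg w f ↔ top w f = top w g)
  hom2 : ∀ f : A2 K n, Hom2 w (top2 w f)
  dgt2 : ∀ f : A2 K n, dg2 w (top2 w f) = dg2 w f
  ne2 : ∀ f : A2 K n, f ≠ 0 → top2 w f ≠ 0
  sub2 : ∀ f : A2 K n, 0 < dg2 w f → dg2 w (f - top2 w f) < dg2 w f
  mul2 : ∀ f g : A2 K n, f ≠ 0 → g ≠ 0 → top2 w (f * g) = top2 w f * top2 w g
  lt2 : ∀ f g : A2 K n, 0 < dg2 w f → dg2 w f = dg2 w g →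
    (dg2 w (f - g) < dg2 w f ↔ top2 w f = top2 w g)
  dl' : ∀ f : A K n, 0 < dg w f → top2 w (dl f) = dl (top w f)
  /-- homogeneous elements have words of one length -/
  len : ∀ f : A K n, Hom w f → ∃ l : ℕ, ∀ u ∈ f.coeff.support, u.toList.length = l
  com : ∀ f g : A K n, 0 < dg w f → 0 < dg w g →
    (Com w f g ↔ top w f * top w g = top w g * top w f)
  homtop : ∀ (P : A K 2) (f g : A K n), 0 < dg w f → 0 < dg w g → Hom w f → Hom w g →
    Hom ![dg w f, dg w g] P → ev P f g ≠ 0 →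
    (Hom w (ev P f g) ∧ dg w (ev P f g) = dg ![dg w f, dg w g] P)

/-! ## the generic matrices (section 1) -/

/-- coefficient ring of the generic matrices: letters `a` (`false`) and `a'` (`true`) -/
abbrev RR (K : Type*) [Field K] (N : ℕ) : Type _ := MvPolynomial (Bool × Fin 3 × ZMod N) K

/-- index set of the `N² × N²` matrices -/
abbrev Ix (N : ℕ) : Type := ZMod N × ZMod N

/-- operators on `Mat_N` -/
abbrev MM (K : Type*) [Field K] (N : ℕ) : Type _ := Matrix (Ix N) (Ix N) (RR K N)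

section

variable {K : Type*} [Field K] {N : ℕ} [NeZero N]

/-- left multiplication by the generic weighted shift `X_i` -/
noncomputable def Lm (i : Fin 3) : MM K N :=
  fun p q => if q = (p.1 + 1, p.2) then MvPolynomial.X (false, i, p.1) else 0

/-- right multiplication by the generic weighted shift `X'_i` -/
noncomputable def Rm (i : Fin 3) : MM K N :=
  fun p q => if p = (q.1, q.2 + 1) then MvPolynomial.X (true, i, q.2) else 0

/-- the action of `A ⊗ A^op` on `Mat_N` -/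
noncomputable def rho (N : ℕ) [NeZero N] (T : A2 K 3) : MM K N :=
  T.coeff.sum (fun p c => c • (evl (K := K) (Lm (K := K) (N := N)) (MonoidAlgebra.single p.1 1) *
    (evl (K := K) (fun i => op (Rm (K := K) (N := N) i))
      (MonoidAlgebra.single p.2.unop 1)).unop))

/-- weight of a monomial of `RR` -/
noncomputable def wR (w : Fin 3 → ℝ) (m : (Bool × Fin 3 × ZMod N) →₀ ℕ) : ℝ :=
  m.sum (fun v k => (k : ℝ) * w v.2.1)

/-- weighted degree in `RR` (`0` for `0`) -/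
noncomputable def dR (w : Fin 3 → ℝ) (r : RR K N) : ℝ :=
  if h : r.support.Nonempty then r.support.sup' h (wR w) else 0

/-- degree of a matrix: maximum of the degrees of the entries -/
noncomputable def dM (w : Fin 3 → ℝ) (M : MM K N) : ℝ :=
  Finset.univ.sup' Finset.univ_nonempty (fun p : Ix N × Ix N => dR w (M p.1 p.2))

/-- all words have length at most `m` -/
def Len {n : ℕ} (m : ℕ) (f : A K n) : Prop := ∀ u ∈ f.coeff.support, u.toList.length ≤ m

/-- all words of both factors have length at most `m` -/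
def Len2 {n : ℕ} (m : ℕ) (f : A2 K n) : Prop :=
  ∀ p ∈ f.coeff.support, p.1.toList.length ≤ m ∧ p.2.unop.toList.length ≤ m

/-- `S_g` -/
noncomputable def SS (N : ℕ) [NeZero N] (g : A K 3) : MM K N := rho N (dl g)

/-- `det(S_g) b_i(f, g)` -/
noncomputable def bet (N : ℕ) [NeZero N] (f g : A K 3) (i : Fin 3) : MM K N :=
  (SS N g).det • rho N (dX i f) - SS N f * (SS N g).adjugate * rho N (dX i g)

/-- `E*(f,g) = |g| + max_i (w_i + |β_i|) - |det S_g|` -/
noncomputable def Es (N : ℕ) [NeZero N] (w : Fin 3 → ℝ) (f g : A K 3) : ℝ :=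
  dg w g + Finset.univ.sup' Finset.univ_nonempty (fun i : Fin 3 =>
    dM w ((MvPolynomial.X (false, i, 0) : RR K N) • bet N f g i)) - dR w (SS N g).det

end

/-- module RHO: `rho` is a homomorphism; degrees of matrices -/
structure RhoFacts (K : Type*) [Field K] (w : Fin 3 → ℝ) (N : ℕ) [NeZero N] : Prop where
  one : rho N (1 : A2 K 3) = 1
  add : ∀ S T : A2 K 3, rho N (S + T) = rho N S + rho N T
  smul : ∀ (c : K) (S : A2 K 3), rho N (c • S) = c • rho N S
  mul : ∀ S T : A2 K 3, rho N (S * T) = rho N S * rho N T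
  nn : ∀ r : RR K N, 0 ≤ dR w r
  rmul : ∀ r s : RR K N, r ≠ 0 → s ≠ 0 → dR w (r * s) = dR w r + dR w s
  mnn : ∀ M : MM K N, 0 ≤ dM w M
  madd : ∀ M M' : MM K N, dM w (M + M') ≤ max (dM w M) (dM w M')
  mneg : ∀ M : MM K N, dM w (-M) = dM w M
  mzero : dM w (0 : MM K N) = 0
  msmul : ∀ (r : RR K N) (M : MM K N), r ≠ 0 → M ≠ 0 → dM w (r • M) = dR w r + dM w M
  mmul_le : ∀ M M' : MM K N, dM w (M * M') ≤ dM w M + dM w M'
  x' : ∀ i : Fin 3, dR w (MvPolynomial.X (false, i, 0) : RR K N) = w i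
  rmone : dM w (1 : MM K N) = 0

/-- module NORM: (M) of section 1 -/
def NormStatement (K : Type*) [Field K] (w : Fin 3 → ℝ) : Prop :=
  ∀ (N : ℕ) [NeZero N] (T : A2 K 3) (M : MM K N), T ≠ 0 → M ≠ 0 → Len2 N T →
    rho N T * M ≠ 0 ∧ dM w (rho N T * M) = dg2 w T + dM w M

/-- module BETA: the formal properties of `bet` -/
structure BetaFacts (K : Type*) [Field K] (w : Fin 3 → ℝ) (N : ℕ) [NeZero N] : Prop where
  det : ∀ g : A K 3, 0 < dg w g → Len N g → (SS N g).det ≠ 0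
  le : ∀ f g : A K 3, 0 < dg w f → 0 < dg w g → Len N f → Len N g →
    Es N w f g ≤ dg w f + dg w g
  /-- the chain rule -/
  ch : ∀ (f g : A K 3) (P : A K 2) (i : Fin 3),
    bet N (ev P f g) g i = rho N (evl2 ![f, g] (dX 0 P)) * bet N f g i
  tri : ∀ (u v z : A K 3) (i : Fin 3), (SS N v).det • bet N u z i =
    (SS N z).det • bet N u v i + SS N u * (SS N v).adjugate * bet N v z i
  sym : ∀ (f g : A K 3) (i : Fin 3),
    SS N g * (SS N f).adjugate * bet N f g i = - ((SS N g).det • bet N g f i)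
  com : ∀ (f g : A K 3) (i : Fin 3), bet N (f * g - g * f) g i = - (SS N g * bet N f g i)
  sym' : ∀ f g : A K 3, 0 < dg w f → 0 < dg w g → Len N f → Len N g →
    (∃ i, bet N f g i ≠ 0) → Es N w f g = Es N w g f
  zsym : ∀ f g : A K 3, 0 < dg w f → 0 < dg w g → Len N f → Len N g →
    ((∀ i, bet N f g i = 0) ↔ ∀ i, bet N g f i = 0)
  v2 : ∀ (f g : A K 3) (P : A K 2), 0 < dg w f → 0 < dg w g → Len N f → Len N g →
    Len2 N (evl2 ![f, g] (dX 0 P)) → evl2 ![f, g] (dX 0 P) ≠ 0 → (∃ i, bet N f g i ≠ 0) →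
    Es N w (ev P f g) g = dg2 w (evl2 ![f, g] (dX 0 P)) + Es N w f g
  vcom : ∀ (f g : A K 3), 0 < dg w f → 0 < dg w g → Len N f → Len N g →
    (∃ i, bet N f g i ≠ 0) → Es N w (f * g - g * f) g = dg w g + Es N w f g
  v3 : ∀ u v z : A K 3, 0 < dg w u → 0 < dg w v → 0 < dg w z → Len N u → Len N v → Len N z →
    (∃ i, bet N u z i ≠ 0) → Es N w u z - dg w z ≤
      max (Es N w u v - dg w v) (dg w u - dg w v + Es N w v z - dg w z)

/-- module SPEC: (V4) of section 1 -/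
def SpecStatement (K : Type*) [Field K] (w : Fin 3 → ℝ) : Prop :=
  ∀ (N : ℕ) [NeZero N] (u v : A K 3), Hom w u → Hom w v → 0 < dg w u → 0 < dg w v →
    Len N (u * v) → (∀ i, bet N u v i = 0) → u * v = v * u

/-- module TOPB: the top part of `bet` -/
def TopbStatement (K : Type*) [Field K] (w : Fin 3 → ℝ) : Prop :=
  ∀ (N : ℕ) [NeZero N] (f g : A K 3), 0 < dg w f → 0 < dg w g → Len N f → Len N g →
    (∃ i, bet N (top w f) (top w g) i ≠ 0) →
    (∃ i, bet N f g i ≠ 0) ∧ Es N w f g = dg w f + dg w g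

/-- module TRACE: (NC) of section 1 -/
def TraceStatement (K : Type*) [Field K] (w : Fin 3 → ℝ) : Prop :=
  ∀ f g : A K 3, f * g ≠ g * f →
    top w (f * g - g * f) * top w g ≠ top w g * top w (f * g - g * f)

/-- module COMW: commuting elements (C) -/
structure ComwFacts (K : Type*) [Field K] {n : ℕ} (w : Fin n → ℝ) : Prop where
  trans : ∀ f g h : A K n, 0 < dg w f → 0 < dg w g → 0 < dg w h → Com w f g → Com w g h →
    Com w f h
  prop : ∀ f g : A K n, 0 < dg w f → dg w f = dg w g → Com w f g →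
    ∃ c : K, c ≠ 0 ∧ dg w (f - c • g) < dg w f
  rat : ∀ f g : A K n, 0 < dg w f → 0 < dg w g → Com w f g →
    ∃ p q : ℕ, 0 < p ∧ 0 < q ∧ q * dg w f = p * dg w g
  /-- common root of commuting homogeneous elements -/
  root : ∀ u v : A K n, Hom w u → Hom w v → 0 < dg w u → 0 < dg w v → u * v = v * u →
    ∃ (z : A K n) (a b : K) (i j : ℕ), Hom w z ∧ 0 < dg w z ∧ a ≠ 0 ∧ b ≠ 0 ∧ 0 < i ∧ 0 < j ∧
      u = a • z ^ i ∧ v = b • z ^ j

/-- module ECORE -/
structure ECore (K : Type*) [Field K] (w : Fin 3 → ℝ) : Prop where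
  nc : ∀ f g : A K 3, f * g ≠ g * f → E w (f * g - g * f) g = E w f g + dg w g
  ult : ∀ u v z : A K 3, u * z ≠ z * u → 0 < dg w v →
    min (Df w u v) (Df w v z) ≤ Df w u z
  v2 : ∀ (f g : A K 3) (P : A K 2), f * g ≠ g * f → evl2 ![f, g] (dX 0 P) ≠ 0 →
    E w (ev P f g) g = dg2 w (evl2 ![f, g] (dX 0 P)) + E w f g
  v2' : ∀ (f g : A K 3) (P : A K 2), f * g ≠ g * f → evl2 ![f, g] (dX 1 P) ≠ 0 →
    E w (ev P f g) f = dg2 w (evl2 ![f, g] (dX 1 P)) + E w f g

/-- module EFIN: the facts on `E`, `D` (from ECORE) -/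
structure EFacts (K : Type*) [Field K] (w : Fin 3 → ℝ) : Prop where
  nn : ∀ f g : A K 3, 0 ≤ E w f g
  comm : ∀ f g : A K 3, E w f g = E w g f
  le : ∀ f g : A K 3, E w f g ≤ dg w f + dg w g
  zero : ∀ f g : A K 3, f * g = g * f → E w f g = 0
  pos : ∀ f g : A K 3, f * g ≠ g * f → 0 < E w f g ∧ 0 < dg w f ∧ 0 < dg w g
  smul : ∀ (c : K) (f g : A K 3), c ≠ 0 → E w (c • f) g = E w f g
  addc : ∀ (c : K) (f g : A K 3), E w (f + c • 1) g = E w f g
  add_le : ∀ f f' g : A K 3, E w (f + f') g ≤ max (E w f g) (E w f' g)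
  add_left : ∀ f f' g : A K 3, E w f' g < E w f g → E w (f + f') g = E w f g
  /-- adding polynomials in `g` does not change the commutator with `g` -/
  addp : ∀ (f g : A K 3) (R : Polynomial K), E w (f + Polynomial.aeval g R) g = E w f g
  /-- (NC) -/
  nc : ∀ f g : A K 3, f * g ≠ g * f → E w (f * g - g * f) g = E w f g + dg w g
  /-- the top of `[f,g]` and `R(g)` do not cancel -/
  ncadd : ∀ (f g : A K 3) (a : K) (R : Polynomial K), f * g ≠ g * f → a ≠ 0 →
    dg w (a • (f * g - g * f) + Polynomial.aeval g R) = max (E w f g) (dg w (Polynomial.aeval g R))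
  /-- the ultrametric inequality (V3) -/
  ult : ∀ u v z : A K 3, u * z ≠ z * u → 0 < dg w v →
    min (Df w u v) (Df w v z) ≤ Df w u z
  /-- (V2) -/
  v2 : ∀ (f g : A K 3) (P : A K 2), f * g ≠ g * f → evl2 ![f, g] (dX 0 P) ≠ 0 →
    E w (ev P f g) g = dg2 w (evl2 ![f, g] (dX 0 P)) + E w f g
  v2' : ∀ (f g : A K 3) (P : A K 2), f * g ≠ g * f → evl2 ![f, g] (dX 1 P) ≠ 0 →
    E w (ev P f g) f = dg2 w (evl2 ![f, g] (dX 1 P)) + E w f g
  /-- `K⟨f,g⟩` is free -/
  inj : ∀ (f g : A K 3) (P : A K 2), f * g ≠ g * f → ev P f g = 0 → P = 0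
  inj2 : ∀ (f g : A K 3) (T : A2 K 2), f * g ≠ g * f → evl2 ![f, g] T = 0 → T = 0
  poly : ∀ (f g : A K 3) (R : Polynomial K), f * g ≠ g * f → R.natDegree ≠ 0 →
    E w (Polynomial.aeval g R) f = dg w (Polynomial.aeval g R) - dg w g + E w f g
  /-- commuting with a multiple of the degree -/
  dv : ∀ (f g : A K 3) (k : ℕ), 0 < dg w f → 0 < dg w g → Com w f g → dg w f = k * dg w g →
    Dv w f g
  dv' : ∀ f g : A K 3, 0 < dg w f → Dv w f g → 0 < dg w g ∧ Com w f g ∧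
    ∃ (c : K) (k : ℕ), c ≠ 0 ∧ 1 ≤ k ∧ dg w f = k * dg w g ∧ dg w (f - c • g ^ k) < dg w f

/-! ## two elements (section 2) -/

/-- module DIV -/
def DivStatement (K : Type*) [Field K] (w : Fin 3 → ℝ) : Prop :=
  ∀ (g t : A K 3) (G : A2 K 3), Hom w g → 0 < dg w g → Hom w t → 0 < dg w t →
    G * dl g = dl t → ∃ (c : K) (k : ℕ), t = c • g ^ k

/-- module OR: orthogonal decomposition -/
def OrStatement (K : Type*) [Field K] (w : Fin 3 → ℝ) : Prop :=
  ∀ (S : Submodule K (A K 3)) (T : A2 K 3),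
    T ∈ Submodule.span K {t : A2 K 3 | ∃ e ∈ S, ∃ e' ∈ S, t = tn e e'} →
    ∃ (m : ℕ) (e e' : Fin m → A K 3), (∀ i, e i ∈ S ∧ e' i ∈ S ∧ e i ≠ 0 ∧ e' i ≠ 0 ∧
      dg w (e i) + dg w (e' i) ≤ dg2 w T) ∧ T = ∑ i, tn (e i) (e' i)

/-- module MEM -/
structure MemFacts (K : Type*) [Field K] (w : Fin 3 → ℝ) : Prop where
  mem : ∀ f g q : A K 3, f * g ≠ g * f → q ∈ B f g →
    (∃ R : Polynomial K, q = Polynomial.aeval g R) ∨ E w f g ≤ E w q g
  lin : ∀ f g q : A K 3, f * g ≠ g * f → q ∈ B f g → E w q g ≤ E w f g →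
    ∃ (c : K) (R : Polynomial K), q = c • f + Polynomial.aeval g R

/-- module XA: (X5a) -/
structure XaFacts (K : Type*) [Field K] (w : Fin 3 → ℝ) : Prop where
  xa : ∀ f g q : A K 3, f * g ≠ g * f → q ∈ B f g → 0 < dg w q → ¬ Dv w q g →
    dg w q - dg w f + E w f g ≤ E w q g

/-- module FREE: free pairs -/
structure FreeFacts (K : Type*) [Field K] (w : Fin 3 → ℝ) : Prop where
  fr0 : ∀ (f g : A K 3) (P : A K 2), 0 < dg w f → 0 < dg w g → ¬ Com w f g →
    dg w (ev P f g) = dg ![dg w f, dg w g] P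
  fr1 : ∀ f g q : A K 3, 0 < dg w f → 0 < dg w g → ¬ Com w f g → q ∈ B f g → dg w q < dg w g →
    ∃ R : Polynomial K, q = Polynomial.aeval f R
  fr2 : ∀ f g q : A K 3, 0 < dg w f → 0 < dg w g → ¬ Com w f g → q ∈ B f g →
    dg w q < dg w g + min (dg w f) (dg w g) →
    ∃ (c : K) (R : Polynomial K), q = c • g + Polynomial.aeval f R
  fr3 : ∀ f g q : A K 3, 0 < dg w f → 0 < dg w g → ¬ Com w f g → q ∈ B f g → 0 < dg w q →
    Com w q f → Dv w q f

/-- module XE: (X5), `f` the big one, `g` the small one -/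
structure XeFacts (K : Type*) [Field K] (w : Fin 3 → ℝ) : Prop where
  xe0 : ∀ f g q : A K 3, f * g ≠ g * f → dg w g < dg w f → ¬ Dv w f g → dg w g < E w f g →
    q ∈ B f g → dg w q < dg w g → ∃ c : K, q = c • 1
  xe1 : ∀ f g q : A K 3, f * g ≠ g * f → dg w g < dg w f → ¬ Dv w f g → dg w g < E w f g →
    q ∈ B f g → (∃ (c : K) (R : Polynomial K), q = c • f + Polynomial.aeval g R) ∨
      (E w f g + dg w g ≤ E w q g ∧ E w f g ≤ dg w q)
  xe2 : ∀ f g q : A K 3, f * g ≠ g * f → dg w g < dg w f → ¬ Dv w f g → dg w g < E w f g →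
    q ∈ B f g → (∃ (c : K) (R : Polynomial K), q = c • g + Polynomial.aeval f R) ∨
      E w f g + dg w g ≤ E w q f

/-- module WONE: (W1), and sums `c f + R(g)` -/
structure WoneFacts (K : Type*) [Field K] (w : Fin 3 → ℝ) : Prop where
  w1 : ∀ f g q : A K 3, f * g ≠ g * f → ND w f g → Gd w f g → dg w g < dg w f → q ∈ B f g →
    dg w q < dg w f → ∃ (a : K) (R : Polynomial K),
      q = a • (f * g - g * f) + Polynomial.aeval g R ∧ dg w (Polynomial.aeval g R) ≤ dg w q ∧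
      (a ≠ 0 → E w f g ≤ dg w q ∧ E w q f = dg w f + E w f g)
  w2 : ∀ f g q : A K 3, f * g ≠ g * f → ND w f g → Gd w f g → dg w g < dg w f → q ∈ B f g →
    dg w q < dg w f → 0 < dg w q → Com w q g →
    Dv w q g ∧ ∃ R : Polynomial K, R.natDegree ≠ 0 ∧ dg w (q - Polynomial.aeval g R) < dg w q
  /-- nondivisible pairs: `c f + R(g)` has no cancellation -/
  nd1 : ∀ (f g : A K 3) (c : K) (R : Polynomial K), ND w f g → c ≠ 0 →
    dg w (c • f + Polynomial.aeval g R) = max (dg w f) (dg w (Polynomial.aeval g R)) ∧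
    dg w f ≠ dg w (Polynomial.aeval g R)
  ndsymm : ∀ f g : A K 3, ND w f g → ND w g f
  gdsymm : ∀ f g : A K 3, Gd w f g → Gd w g f
  ndne : ∀ f g : A K 3, ND w f g → dg w f ≠ dg w g
  /-- only the tops matter -/
  dvtop : ∀ f f' g : A K 3, 0 < dg w f → dg w (f - f') < dg w f → Dv w f g → Dv w f' g
  dvtop' : ∀ f g g' : A K 3, 0 < dg w f → dg w (g - g') < dg w g → Dv w f g → Dv w f g'
  comtop : ∀ f f' g : A K 3, 0 < dg w f → 0 < dg w g → dg w (f - f') < dg w f → Com w f g →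
    Com w f' g
  ndtop : ∀ f f' g : A K 3, dg w (f - f') < dg w f → ND w f g → ND w f' g
  dgtop : ∀ f f' : A K 3, dg w (f - f') < dg w f → dg w f' = dg w f
  dvtrans : ∀ f g h : A K 3, 0 < dg w f → Dv w f g → Dv w g h → Dv w f h
  dvsmul : ∀ (f g : A K 3) (c : K), c ≠ 0 → 0 < dg w f → (Dv w (c • f) g ↔ Dv w f g)

/-- section 2: facts on `B = K⟨f,g⟩`, `[f,g] ≠ 0` -/
structure TwoFacts (K : Type*) [Field K] (w : Fin 3 → ℝ) : Prop extends
  MemFacts K w, XaFacts K w, FreeFacts K w, XeFacts K w, WoneFacts K w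

/-! ## frames and vertices (section 3) -/

/-- module SPAN: planes, spans and subalgebras -/
structure SpanFacts (K : Type*) [Field K] : Prop where
  bcomm : ∀ f g : A K 3, B f g = B g f
  bel : ∀ (f g : A K 3) (c : K) (R : Polynomial K), c ≠ 0 →
    B (c • f + Polynomial.aeval g R) g = B f g
  bf : ∀ f g : A K 3, f ∈ B f g
  bg : ∀ f g : A K 3, g ∈ B f g
  bpoly : ∀ (f g : A K 3) (R : Polynomial K), Polynomial.aeval g R ∈ B f g
  blin : ∀ f g f' g' : A K 3, lin f g = lin f' g' → B f g = B f' g'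
  linB : ∀ f g r : A K 3, r ∈ lin f g → r ∈ B f g
  linmem : ∀ f g r : A K 3, r ∈ lin f g ↔ ∃ a b c : K, r = a • f + b • g + c • 1
  spmem : ∀ f g h r : A K 3, r ∈ sp f g h ↔ ∃ a b c d : K, r = a • f + b • g + c • h + d • 1
  lcomm : ∀ f g : A K 3, lin f g = lin g f
  lel : ∀ (f g : A K 3) (a b c : K), a ≠ 0 → lin (a • f + b • g + c • 1) g = lin f g
  scomm : ∀ f g h : A K 3, sp f g h = sp g f h
  scomm' : ∀ f g h : A K 3, sp f g h = sp f h g
  sel : ∀ (f g h r : A K 3) (c : K), c ≠ 0 → r ∈ lin f g → sp f g (c • h + r) = sp f g h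
  slin : ∀ f g f' g' h : A K 3, lin f g = lin f' g' → sp f g h = sp f' g' h

/-- module FRAME -/
structure FrFacts (K : Type*) [Field K] (w : Fin 3 → ℝ) : Prop where
  base : Fr (xx 0 : A K 3) (xx 1) (xx 2)
  p12 : ∀ f g h : A K 3, Fr f g h → Fr g f h
  p23 : ∀ f g h : A K 3, Fr f g h → Fr f h g
  el : ∀ (f g h q : A K 3) (c : K), Fr f g h → c ≠ 0 → q ∈ B f g → Fr f g (c • h + q)
  nc : ∀ f g h : A K 3, Fr f g h → f * g ≠ g * f
  pos : ∀ f g h : A K 3, Fr f g h → 0 < dg w f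
  ge : ∀ f g h : A K 3, Fr f g h → sg w ≤ dg w f + dg w g + dg w h
  frlin : ∀ f g f' g' h : A K 3, Fr f g h → lin f g = lin f' g' → Fr f' g' h
  /-- two bases of the same vertex -/
  frsp : ∀ f g h f' g' h' : A K 3, Fr f g h → sp f g h = sp f' g' h' → Fr f' g' h'
  indep : ∀ (f g h : A K 3) (a b c d : K), Fr f g h → a • f + b • g + c • h + d • 1 = 0 →
    a = 0 ∧ b = 0 ∧ c = 0 ∧ d = 0
  adj : ∀ f g h q : A K 3, Fr f g h → q ∈ B f g → Adj (sp f g h) (sp f g (h + q))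
  adj' : ∀ f g h q q' : A K 3, Fr f g h → q ∈ B f g → q' ∈ B f g →
    Adj (sp f g (h + q)) (sp f g (h + q'))
  symm : ∀ V V' : Submodule K (A K 3), Adj V V' → Adj V' V
  vtx : ∀ V V' : Submodule K (A K 3), Adj V V' → Vtx V ∧ Vtx V'
  /-- neighbours via a given plane -/
  adjm : ∀ f g h h' : A K 3, Fr f g h → h' - h ∈ B f g →
    Fr f g h' ∧ Adj (sp f g h) (sp f g h')

/-- module BASE: vertices of minimal degree -/
def BaseStatement (K : Type*) [Field K] (w : Fin 3 → ℝ) : Prop :=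
  ∀ u v l : A K 3, Fr u v l → Or3 w u v l → dg w u + dg w v + dg w l ≤ sg w →
    ¬ Com w u v ∧ ∀ d ∈ B u v, 0 < dg w d → ∀ q ∈ B u v,
      dg w (l * d - d * l) ≤ dg w (l * d - d * l + q)

/-- module ORB: good bases -/
structure OrFacts (K : Type*) [Field K] (w : Fin 3 → ℝ) : Prop where
  /-- good basis of a plane containing a prescribed line `l` -/
  exl : ∀ l m : A K 3, l * m ≠ m * l →
    ∃ a : K, Or2 w l (m + a • l) ∧ lin l (m + a • l) = lin l m
  mn3 : ∀ f g h : A K 3, Fr f g h → Or2 w f g → (∀ r ∈ lin f g, dg w h ≤ dg w (h + r)) →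
    Or3 w f g h
  /-- the best representative modulo `K⟨f,g⟩` -/
  mnex : ∀ f g h : A K 3, ∃ q ∈ B f g, Mn w (h + q) f g
  or2ne : ∀ f g : A K 3, 0 < dg w f → 0 < dg w g → dg w f ≠ dg w g → Or2 w f g
  or2nc : ∀ f g : A K 3, 0 < dg w f → 0 < dg w g → ¬ Com w f g → Or2 w f g
  or2com : ∀ f g : A K 3, 0 < dg w f → Or2 w f g → Com w f g → dg w f ≠ dg w g
  or2symm : ∀ f g : A K 3, Or2 w f g → Or2 w g f
  or3p12 : ∀ f g h : A K 3, Or3 w f g h → Or3 w g f h
  or3p23 : ∀ f g h : A K 3, Or3 w f g h → Or3 w f h g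
  or32 : ∀ f g h : A K 3, Or3 w f g h → Or2 w f g
  /-- good bases of the same plane have the same degrees -/
  or2deg : ∀ f g f' g' : A K 3, f * g ≠ g * f → Or2 w f g → Or2 w f' g' → lin f g = lin f' g' →
    (dg w f' = dg w f ∧ dg w g' = dg w g) ∨ (dg w f' = dg w g ∧ dg w g' = dg w f)
  /-- `E` is an invariant of the plane -/
  elin : ∀ f g f' g' : A K 3, f * g ≠ g * f → lin f g = lin f' g' → E w f' g' = E w f g
  /-- nondivisibility is an invariant of the plane, for good bases -/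
  ndlin : ∀ f g f' g' : A K 3, f * g ≠ g * f → ND w f g → Or2 w f' g' → lin f g = lin f' g' →
    ND w f' g'
  gdlin : ∀ f g f' g' : A K 3, f * g ≠ g * f → ND w f g → Gd w f g → Or2 w f' g' →
    lin f g = lin f' g' → Gd w f' g'
  ndor : ∀ f g : A K 3, ND w f g → Or2 w f g

/-- module VD: degrees of vertices -/
structure VdFacts (K : Type*) [Field K] (w : Fin 3 → ℝ) : Prop where
  le : ∀ f g h : A K 3, Fr f g h → vd w (sp f g h) ≤ dg w f + dg w g + dg w h
  eq : ∀ f g h : A K 3, Fr f g h → Or3 w f g h → vd w (sp f g h) = dg w f + dg w g + dg w h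
  ge : ∀ V : Submodule K (A K 3), Vtx V → sg w ≤ vd w V
  /-- good basis of a plane and minimal complement -/
  ex : ∀ f g h : A K 3, Fr f g h → ∃ f' g' h' : A K 3, lin f' g' = lin f g ∧ h' - h ∈ lin f g ∧
    Fr f' g' h' ∧ Or2 w f' g' ∧ Or3 w f' g' h' ∧ sp f' g' h' = sp f g h
  strict : ∀ f g h h' : A K 3, Fr f g h → Or3 w f g h → h' - h ∈ B f g → dg w h' < dg w h →
    vd w (sp f g h') < vd w (sp f g h)
  /-- induction on the degree of vertices -/
  wf : ∀ P : Submodule K (A K 3) → Prop, (∀ V, Vtx V → (∀ V', Vtx V' → vd w V' < vd w V → P V') →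
    P V) → ∀ V, Vtx V → P V

/-- all facts for sections 4 - 6 -/
structure Facts (K : Type*) [Field K] (w : Fin 3 → ℝ) : Prop where
  d : DegFacts K w
  c : ComwFacts K w
  e : EFacts K w
  t : TwoFacts K w
  s : SpanFacts K
  f : FrFacts K w
  o : OrFacts K w
  v : VdFacts K w
  b : BaseStatement K w

/-- module STR -/
def StrStatement (K : Type*) [Field K] (w : Fin 3 → ℝ) : Prop :=
  ∀ (ν : ℝ) (u v l : A K 3), HA K w ν → Fr u v l → Or2 w u v → Mn w l u v →
    Red w (sp u v l) → sg w < vd w (sp u v l) → vd w (sp u v l) ≤ ν →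
    ∃ l' m' c t : A K 3, Fr l' m' c ∧ Or2 w l' m' ∧ lin l' m' = lin u v ∧
      sp l' m' c = sp u v l ∧ Fr l' m' l ∧ Or3 w l' m' l ∧ Fr l' c t ∧ Red w (sp l' c t) ∧
      vd w (sp l' c t) < vd w (sp u v l) ∧ Mn w t c l' ∧
      ((Mn w c u v ∧ (∃ k : K, c = l + k • m') ∧ dg w c = dg w l ∧ Or3 w l' m' c ∧
          m' - t ∈ B c l' ∧ dg w t < dg w m') ∨
        ((∃ k : K, k ≠ 0 ∧ c = l + k • m') ∧ dg w l < dg w m' ∧ l - t ∈ B c l' ∧
          dg w t < dg w l))

/-! ## Lemmas B, N, C (section 4) -/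

section

variable {K : Type*} [Field K]

/-- Lemma B for the frame `(a, b, c)` -/
def LBat (w : Fin 3 → ℝ) (a b c : A K 3) : Prop :=
  ND w a b → Mn w c a b → Df w c a < Df w a b →
    E w c a = dg w c + dg w a ∧ E w c b = dg w c + dg w b ∧
    E w a b = dg w c + min (dg w a) (dg w b)

/-- Lemma N for the frame `(l, m, c)` -/
def LNat (w : Fin 3 → ℝ) (l m c : A K 3) : Prop :=
  ND w l m → Mn w c l m → ∀ q ∈ B l m, 0 < dg w q → Com w q l → ¬ Dv w q l → dg w c < dg w q →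
    E w (c + q) l < E w q l →
    dg w l < dg w m ∧ ∃ (k : K) (R : Polynomial K), q = k • m + Polynomial.aeval l R

/-- Lemma C for the frame `(m, g, l)` -/
def LCat (w : Fin 3 → ℝ) (m g l : A K 3) : Prop :=
  ∀ (n k : ℕ) (c c' : K) (q : A K 3), 1 ≤ k → k < n → dg w (g - c • m ^ k) < dg w g →
    Mn w l m g → q ∈ B m g → dg w (q - c' • m ^ n) < dg w q → ¬ Dv w q g → dg w l < dg w q →
    E w q g ≤ E w (l + q) g

end

/-- Lemma B for all vertices in `S` of degree `< ν` -/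
def LBlt (K : Type*) [Field K] (w : Fin 3 → ℝ) (ν : ℝ) : Prop :=
  ∀ a b c : A K 3, Fr a b c → Red w (sp a b c) → vd w (sp a b c) < ν → LBat w a b c

/-- Lemma N for all vertices in `S` of degree `< ν` -/
def LNlt (K : Type*) [Field K] (w : Fin 3 → ℝ) (ν : ℝ) : Prop :=
  ∀ l m c : A K 3, Fr l m c → Red w (sp l m c) → vd w (sp l m c) < ν → LNat w l m c

/-- Lemma C for all vertices in `S` of degree `< ν` -/
def LClt (K : Type*) [Field K] (w : Fin 3 → ℝ) (ν : ℝ) : Prop :=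
  ∀ m g l : A K 3, Fr m g l → Red w (sp m g l) → vd w (sp m g l) < ν → LCat w m g l

/-- Lemma C' for all vertices in `S` of degree `< ν` -/
def LCplt (K : Type*) [Field K] (w : Fin 3 → ℝ) (ν : ℝ) : Prop :=
  ∀ u v l : A K 3, Fr u v l → Red w (sp u v l) → vd w (sp u v l) < ν → Mn w l u v →
    (dg w u + dg w v ≤ dg w l ∨ Df w l u ≤ dg w l - E w u v ∨ Df w l v ≤ dg w l - E w u v) →
    (∃ d ∈ B u v, 0 < dg w d ∧ ∃ q ∈ B u v, dg w (l * d - d * l + q) < dg w (l * d - d * l)) →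
    False

/-- module LEMN -/
def LemnStatement (K : Type*) [Field K] (w : Fin 3 → ℝ) : Prop :=
  ∀ ν : ℝ, HB K w ν → LBlt K w ν → LNlt K w ν

/-- module CPRED: Lemma C' for reduced pairs `(u, v)` -/
def CpredStatement (K : Type*) [Field K] (w : Fin 3 → ℝ) : Prop :=
  ∀ (ν : ℝ) (u v l : A K 3), HA K w ν → HB K w ν → LBlt K w ν → Fr u v l → Red w (sp u v l) →
    vd w (sp u v l) < ν → Mn w l u v → ¬ Dv w u v → ¬ Dv w v u →
    (dg w u + dg w v ≤ dg w l ∨ Df w l u ≤ dg w l - E w u v ∨ Df w l v ≤ dg w l - E w u v) →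
    (∃ d ∈ B u v, 0 < dg w d ∧ ∃ q ∈ B u v, dg w (l * d - d * l + q) < dg w (l * d - d * l)) →
    False

/-- module LEMCP: Lemma C' from the reduced case -/
def LemcpStatement (K : Type*) [Field K] (w : Fin 3 → ℝ) : Prop :=
  ∀ ν : ℝ, HA K w ν → HB K w ν → LBlt K w ν → LCplt K w ν

/-- module LEMC -/
def LemcStatement (K : Type*) [Field K] (w : Fin 3 → ℝ) : Prop :=
  ∀ ν : ℝ, LCplt K w ν → LClt K w ν

/-- module LEMBI: case I of the proof of Lemma B is impossible.  `(l1, m1)` is a good basis of the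
plane, `c` the minimal third element, `m1 - t ∈ K⟨c, l1⟩` the strict move. -/
def LembiStatement (K : Type*) [Field K] (w : Fin 3 → ℝ) : Prop :=
  ∀ (ν : ℝ) (l1 m1 c t : A K 3), HA K w ν → LNlt K w (vd w (sp l1 m1 c)) →
    LClt K w (vd w (sp l1 m1 c)) → vd w (sp l1 m1 c) ≤ ν → Fr l1 m1 c → ND w l1 m1 →
    Or3 w l1 m1 c → Mn w c l1 m1 → Df w c l1 = Df w c m1 → Df w c l1 < Df w l1 m1 →
    Fr l1 c t → Red w (sp l1 c t) → vd w (sp l1 c t) < vd w (sp l1 m1 c) → Mn w t c l1 →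
    m1 - t ∈ B c l1 → dg w t < dg w m1 → False

/-- module LEMBII: case II of the proof of Lemma B -/
def LembiiStatement (K : Type*) [Field K] (w : Fin 3 → ℝ) : Prop :=
  ∀ (ν : ℝ) (l1 m1 c0 c t : A K 3) (k : K), HB K w ν → vd w (sp l1 c t) < ν →
    Fr l1 m1 c0 → ND w l1 m1 → Mn w c0 l1 m1 → k ≠ 0 → c = c0 + k • m1 → dg w c0 < dg w m1 →
    Fr l1 c t → Red w (sp l1 c t) → c0 - t ∈ B c l1 → dg w t < dg w c0 →
    dg w l1 < dg w m1 ∧ E w c0 l1 = dg w c0 + dg w l1 ∧ E w l1 m1 = dg w c0 + dg w l1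

/-- module LEMB: Lemma B from the two cases -/
def LembStatement (K : Type*) [Field K] (w : Fin 3 → ℝ) : Prop :=
  ∀ (ν : ℝ) (a b c : A K 3), HA K w ν → HB K w ν → LNlt K w (vd w (sp a b c)) →
    LClt K w (vd w (sp a b c)) → vd w (sp a b c) ≤ ν → Fr a b c → Red w (sp a b c) →
    LBat w a b c

/-- module LEMALL: the induction of section 4 -/
def LemallStatement (K : Type*) [Field K] (w : Fin 3 → ℝ) : Prop :=
  ∀ ν : ℝ, HA K w ν → HB K w ν → LBlt K w ν ∧ LNlt K w ν ∧ LClt K w ν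

/-! ## section 5 -/

/-- the situation of section 5 -/
structure C5 {K : Type*} [Field K] (w : Fin 3 → ℝ) (ν : ℝ) (l m g c0 : A K 3) : Prop where
  fr : Fr l m c0
  or2 : Or2 w l m
  mn : Mn w c0 l m
  red : Red w (sp l m c0)
  lt : vd w (sp l m c0) < ν
  q : g - c0 ∈ B l m
  dlt : dg w c0 < dg w g
  nd : ND w l g
  le : vd w (sp l m g) ≤ ν

/-- module FIVES: reduction to the situation `C5` -/
def FivesStatement (K : Type*) [Field K] (w : Fin 3 → ℝ) : Prop :=
  ∀ (ν : ℝ) (a b h : A K 3), HA K w ν → HB K w ν → Fr a b h → Red w (sp a b h) →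
    vd w (sp a b h) = ν → sg w < ν → ND w a b →
    Gd w a b ∨ ∃ l m g c0 : A K 3, C5 w ν l m g c0 ∧ lin l g = lin a b

/-- module FIVEF: `l ~ m` -/
def FivefStatement (K : Type*) [Field K] (w : Fin 3 → ℝ) : Prop :=
  ∀ (ν : ℝ) (l m g c0 : A K 3), C5 w ν l m g c0 → Com w l m

/-- module FIVEN: case N -/
def FivenStatement (K : Type*) [Field K] (w : Fin 3 → ℝ) : Prop :=
  ∀ (ν : ℝ) (l m g c0 : A K 3), HB K w ν → LNlt K w ν → Fr l m c0 → Mn w c0 l m →
    Red w (sp l m c0) → vd w (sp l m c0) < ν → g - c0 ∈ B l m → dg w c0 < dg w g → ND w l g →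
    ND w l m → Gd w l g

/-- module FIVEO: case D1 -/
def FiveoStatement (K : Type*) [Field K] (w : Fin 3 → ℝ) : Prop :=
  ∀ (ν : ℝ) (l m g c0 : A K 3), HA K w ν → HB K w ν → C5 w ν l m g c0 → Dv w m l → Gd w l g

/-- module FIVET: case D2, from case N and Lemma C -/
def FivetStatement (K : Type*) [Field K] (w : Fin 3 → ℝ) : Prop :=
  ∀ (ν : ℝ) (l m g c0 : A K 3), HA K w ν → HB K w ν → LNlt K w ν → LClt K w ν →
    C5 w ν l m g c0 → Dv w l m → Gd w l g

/-- module FIVE: section 5 -/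
def FiveStatement (K : Type*) [Field K] (w : Fin 3 → ℝ) : Prop :=
  ∀ (ν : ℝ) (a b h : A K 3), HA K w ν → HB K w ν → LNlt K w ν → LClt K w ν → Fr a b h →
    Red w (sp a b h) → vd w (sp a b h) = ν → ND w a b → Gd w a b

/-! ## section 6 -/

/-- the situation of section 6: `(l, m, f)` good basis of `V`, strict neighbour `(l, m, fs)` -/
structure C6 {K : Type*} [Field K] (w : Fin 3 → ℝ) (ν : ℝ) (l m f fs : A K 3) : Prop where
  fr : Fr l m f
  or3 : Or3 w l m f
  vdf : vd w (sp l m f) = ν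
  q : f - fs ∈ B l m
  dlt : dg w fs < dg w f
  mn : Mn w fs l m
  red : Red w (sp l m fs)

/-- configuration I with the LE move `m → m'` -/
structure CI {K : Type*} [Field K] (w : Fin 3 → ℝ) (ν : ℝ) (l m f fs m' : A K 3) : Prop where
  c6 : C6 w ν l m f fs
  q' : m - m' ∈ B l f
  dle : dg w m' ≤ dg w m

/-- configuration II with the LE move `f → f'` via the plane `⟨l, g⟩`, `g = f + k m` -/
structure CII {K : Type*} [Field K] (w : Fin 3 → ℝ) (ν : ℝ) (l m f fs f' : A K 3) (k : K) :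
    Prop where
  c6 : C6 w ν l m f fs
  hk : k ≠ 0
  lt : dg w f < dg w m
  q' : f - f' ∈ B l (f + k • m)
  dle : dg w f' ≤ dg w f

/-- everything known in section 6 -/
structure H6 (K : Type*) [Field K] (w : Fin 3 → ℝ) (ν : ℝ) : Prop where
  ha : HA K w ν
  hb : HB K w ν
  /-- section 5 -/
  hb' : ∀ a b h : A K 3, Fr a b h → Red w (sp a b h) → vd w (sp a b h) = ν → ND w a b → Gd w a b
  ln : LNlt K w ν

/-- module SIXA: I.1, I.2, I.3 -/
def SixaStatement (K : Type*) [Field K] (w : Fin 3 → ℝ) : Prop :=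
  ∀ (ν : ℝ) (l m f fs m' : A K 3), H6 K w ν → CI w ν l m f fs m' →
    (Dv w m l ∨ Dv w f l ∨
      ∃ (k : K) (R : Polynomial K), m - m' = k • f + Polynomial.aeval l R) →
    Red w (sp l f m')

/-- module SIXB: I.4 -/
def SixbStatement (K : Type*) [Field K] (w : Fin 3 → ℝ) : Prop :=
  ∀ (ν : ℝ) (l m f fs m' : A K 3), H6 K w ν → CI w ν l m f fs m' →
    ¬ Dv w m l → ¬ Dv w f l → ¬ Com w l f → Red w (sp l f m')

/-- module SIXC: I.5a -/
def SixcStatement (K : Type*) [Field K] (w : Fin 3 → ℝ) : Prop :=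
  ∀ (ν : ℝ) (l m f fs m' : A K 3), H6 K w ν → CI w ν l m f fs m' →
    ND w l m → ND w l f → Red w (sp l f m')

/-- module SIXD: I.5b is impossible, and `l !~ m` is impossible -/
def SixdStatement (K : Type*) [Field K] (w : Fin 3 → ℝ) : Prop :=
  (∀ (ν : ℝ) (l m f fs : A K 3), H6 K w ν → C6 w ν l m f fs → ND w l m → Dv w l f → False) ∧
  (∀ (ν : ℝ) (l m f fs : A K 3), C6 w ν l m f fs → ¬ Com w l m → Com w l f → Dv w f l)

/-- module SIXE: I.5c -/
def SixeStatement (K : Type*) [Field K] (w : Fin 3 → ℝ) : Prop :=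
  ∀ (ν : ℝ) (l m f fs m' : A K 3), H6 K w ν → CI w ν l m f fs m' →
    Dv w l m → Com w l f → Red w (sp l f m')

/-- module SIXI: configuration I -/
def SixiStatement (K : Type*) [Field K] (w : Fin 3 → ℝ) : Prop :=
  ∀ (ν : ℝ) (l m f fs m' : A K 3), H6 K w ν → CI w ν l m f fs m' → Red w (sp l f m')

/-- module SIXF: II.1, II.2, II.3 -/
def SixfStatement (K : Type*) [Field K] (w : Fin 3 → ℝ) : Prop :=
  ∀ (ν : ℝ) (l m f fs f' : A K 3) (k : K), H6 K w ν → CII w ν l m f fs f' k →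
    (Dv w f l ∨ ¬ Com w l m ∨ Dv w m l) → Red w (sp l (f + k • m) f')

/-- module SIXG: II.4 and II.5 -/
def SixgStatement (K : Type*) [Field K] (w : Fin 3 → ℝ) : Prop :=
  ∀ (ν : ℝ) (l m f fs f' : A K 3) (k : K), H6 K w ν → CII w ν l m f fs f' k → ¬ Dv w f l →
    (Dv w l m ∨ ND w l m) → Red w (sp l (f + k • m) f')

/-- module SIXS: reduction of the main claim to the two configurations -/
def SixsStatement (K : Type*) [Field K] (w : Fin 3 → ℝ) : Prop :=
  ∀ (ν : ℝ), H6 K w ν →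
    (∀ (l m f fs m' : A K 3), CI w ν l m f fs m' → Red w (sp l f m')) →
    (∀ (l m f fs f' : A K 3) (k : K), CII w ν l m f fs f' k → Red w (sp l (f + k • m) f')) →
    ∀ V V' : Submodule K (A K 3), vd w V = ν → Red w V → Adj V V' → Red w V'

/-- module MAIN: the main claim -/
def MainStatement (K : Type*) [Field K] (w : Fin 3 → ℝ) : Prop :=
  (∀ V V' : Submodule K (A K 3), Red w V → Adj V V' → Red w V') ∧
  (∀ f g h : A K 3, Fr f g h → Red w (sp f g h) → ND w f g → Gd w f g)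

end Pool.Agent.Lib.MP_e1f7e2_al.FA
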