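import Pool.Agent.Lib.MP_e1f7e2_al.FA.Iface

set_option autoImplicit false

/-!
Project FA (MP_e1f7e2_al): module statements, sections 7 and 8 of `Paper.md`.
-/

open MulOpposite

namespace Pool.Agent.Lib.MP_e1f7e2_al.FA

section

variable {K : Type*} [Field K] {n : ℕ}

/-- inclusion of the free algebra in 3 letters into the one in 4 letters -/
noncomputable def em : A K 3 →ₐ[K] A K 4 := evl (fun i => xx (Fin.castSucc i))

/-- weights with the new letter of weight `0` -/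
def w4 (w : Fin 3 → ℝ) : Fin 4 → ℝ := ![w 0, w 1, w 2, 0]

/-- the part of `f` with exactly `m` letters `i` -/
noncomputable def cnt (i : Fin n) (m : ℕ) (f : A K n) : A K n :=
  MonoidAlgebra.ofCoeff (f.coeff.filter (fun u => u.toList.count i = m))

/-- `P^(m)`: the part of degree `m` in `y` of `P(X + y, Y)`, at `X = f`, `Y = g`, `y = x 3` -/
noncomputable def Pm (f g : A K 3) (P : A K 2) (m : ℕ) : A K 4 :=
  evl ![em f, em g, xx 3] (cnt 2 m (evl ![xx 0 + xx 2, xx 1] P : A K 3))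

end

/-- module NONEA: step (1) of (N1) -/
def NoneaStatement (K : Type*) [Field K] (w : Fin 3 → ℝ) : Prop :=
  ∀ (f g : A K 3) (P : A K 2) (m : ℕ), f * g ≠ g * f → Pm f g P (m + 1) ≠ 0 →
    Pm f g P m ≠ 0 ∧
    dg (w4 w) (Pm f g P (m + 1)) + (E w f g - dg w g) ≤ dg (w4 w) (Pm f g P m)

/-- module NONEB: step (2) of (N1) -/
def NonebStatement (K : Type*) [Field K] (w : Fin 3 → ℝ) : Prop :=
  ∀ (f g : A K 3) (P : A K 2), f * g ≠ g * f → ND w f g → dg w g < dg w f →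
    dg w (ev P f g) < dg ![dg w f, dg w g] P →
    ∃ m : ℕ, 1 ≤ m ∧ m * (dg w f + dg w g) ≤ dg ![dg w f, dg w g] P ∧ Pm f g P m ≠ 0 ∧
      dg ![dg w f, dg w g] P - m * dg w f ≤ dg (w4 w) (Pm f g P m)

/-- module NONE: (N1) -/
def NoneStatement (K : Type*) [Field K] (w : Fin 3 → ℝ) : Prop :=
  ∀ (f g : A K 3) (P : A K 2), f * g ≠ g * f → ND w f g → dg w g < dg w f →
    dg w (ev P f g) < dg ![dg w f, dg w g] P → E w f g ≤ dg w (ev P f g)

/-- tame pairs in `K⟨x_1, x_2⟩` -/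
inductive T2 {K : Type*} [Field K] : A K 3 → A K 3 → Prop
  | base : T2 (xx 1) (xx 2)
  | swap (f g : A K 3) (h : T2 f g) : T2 g f
  | el (f g : A K 3) (c : K) (R : Polynomial K) (h : T2 f g) (hc : c ≠ 0) :
      T2 (c • f + Polynomial.aeval g R) g

/-- module CMLF: free pairs -/
def CmlfStatement (K : Type*) [Field K] (w : Fin 3 → ℝ) : Prop :=
  ∀ f g : A K 3, B f g = B (xx 1) (xx 2) → ¬ Com w f g → T2 f g

/-- module CMLN: nondivisible pairs are impossible -/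
def CmlnStatement (K : Type*) [Field K] (w : Fin 3 → ℝ) : Prop :=
  ∀ f g : A K 3, B f g = B (xx 1) (xx 2) → ND w f g → False

/-- module CML: automorphisms of `K⟨x_1, x_2⟩` are tame -/
def CmlStatement (K : Type*) [Field K] : Prop :=
  ∀ f g : A K 3, B f g = B (xx 1) (xx 2) → T2 f g

/-! ## words -/

section

variable {K : Type*} [Field K] {n : ℕ}

/-- sort key of a word: weight first, then the lexicographic order of lists -/
noncomputable def ky (w : Fin n → ℝ) (u : Wd n) : ℝ ×ₗ List (Fin n) := toLex (wt w u, u.toList)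

/-- `u` is the leading word of `f` -/
def IsLw (w : Fin n → ℝ) (f : A K n) (u : Wd n) : Prop :=
  u ∈ f.coeff.support ∧ ∀ v ∈ f.coeff.support, v ≠ u → ky w v < ky w u

/-- the word is longer than `m` and has no period in `[1, m]` -/
def NoPer (m : ℕ) (u : Wd n) : Prop :=
  m < u.toList.length ∧ ∀ r : ℕ, 1 ≤ r → r ≤ m →
    ∃ i : ℕ, i + r < u.toList.length ∧ u.toList[i]? ≠ u.toList[i + r]?

/-- `y` is a factor of `u` -/
def Fac (y u : Wd n) : Prop := ∃ a b : Wd n, u = a * y * b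

/-- number of letters `3` of the words of `G`: maximum -/
noncomputable def dt (G : A K 4) : ℕ := G.coeff.support.sup (fun u => u.toList.count 3)

/-- maximal weight of the words of `G` with the maximal number of letters `3` -/
noncomputable def et (w : Fin 3 → ℝ) (G : A K 4) : ℝ := dg (w4 w) (cnt 3 (dt G) G)

/-- `X_0 ↦ z_0 + x_3, X_1 ↦ z_1, X_2 ↦ z_2` -/
noncomputable def Th (z : Fin 3 → A K 3) : A K 3 →ₐ[K] A K 4 :=
  evl ![em (z 0) + xx 3, em (z 1), em (z 2)]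

/-- the substitution `x_3 ↦ s` -/
noncomputable def sb (s : A K 3) : A K 4 →ₐ[K] A K 3 := evl ![xx 0, xx 1, xx 2, s]

/-- the substitution `x_3 ↦ wd ^ N` on words -/
noncomputable def sw (wd : Wd 3) (N : ℕ) : Wd 4 →* Wd 3 :=
  FreeMonoid.lift ![FreeMonoid.of 0, FreeMonoid.of 1, FreeMonoid.of 2, wd ^ N]

/-- `H ↦ H(z_0 + θ^N, z_1, z_2)` -/
noncomputable def TN (z : Fin 3 → A K 3) (θ : A K 3) (N : ℕ) : A K 3 →ₐ[K] A K 3 :=
  (sb (θ ^ N)).comp (Th z)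

end

/-- module LW (any number of letters, `Gen w`): leading words -/
structure LwFacts (K : Type*) [Field K] {n : ℕ} (w : Fin n → ℝ) : Prop where
  ex : ∀ f : A K n, f ≠ 0 → ∃ u, IsLw w f u
  ne : ∀ (f : A K n) (u : Wd n), IsLw w f u → f ≠ 0
  uniq : ∀ (f : A K n) (u v : Wd n), IsLw w f u → IsLw w f v → u = v
  mul : ∀ (f g : A K n) (u v : Wd n), IsLw w f u → IsLw w g v → IsLw w (f * g) (u * v)
  pow : ∀ (f : A K n) (u : Wd n) (k : ℕ), IsLw w f u → IsLw w (f ^ k) (u ^ k)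
  smul : ∀ (f : A K n) (u : Wd n) (c : K), c ≠ 0 → IsLw w f u → IsLw w (c • f) u
  dgw : ∀ (f : A K n) (u : Wd n), IsLw w f u → dg w f = wt w u
  add : ∀ (f g : A K n) (u v : Wd n), IsLw w f u → IsLw w g v → ky w v < ky w u →
    IsLw w (f + g) u
  lt : ∀ (f g : A K n) (u : Wd n), IsLw w f u → 0 < dg w f → dg w g < dg w f → IsLw w (f + g) u
  /-- a sum of elements with different leading words has the largest of them -/
  sum : ∀ (s : Finset (Wd n)) (F : Wd n → A K n) (φ : Wd n → Wd n),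
    s.Nonempty → (∀ u ∈ s, IsLw w (F u) (φ u)) → (∀ u ∈ s, ∀ v ∈ s, φ u = φ v → u = v) →
    ∃ u ∈ s, IsLw w (∑ v ∈ s, F v) (φ u) ∧ ∀ v ∈ s, ky w (φ v) ≤ ky w (φ u)
  /-- a finite dimensional space has (at least) as many leading words as its dimension -/
  dim : ∀ (S : Submodule K (A K n)) [FiniteDimensional K S],
    {u : Wd n | ∃ f ∈ S, IsLw w f u}.Finite ∧
    Module.finrank K S ≤ {u : Wd n | ∃ f ∈ S, IsLw w f u}.ncard

/-- module WP: elements of `K⟨g,h⟩` with leading words without small periods -/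
def WpStatement (K : Type*) [Field K] (w : Fin 3 → ℝ) : Prop :=
  ∀ g h : A K 3, g * h ≠ h * g → ∀ m : ℕ, ∃ θ ∈ B g h, ∃ wd : Wd 3, IsLw w θ wd ∧ NoPer m wd

/-- module WL: (L) of section 8 -/
def WlStatement (K : Type*) [Field K] (w : Fin 3 → ℝ) : Prop :=
  ∀ (m : ℕ) (θ : A K 3) (wd : Wd 3), IsLw w θ wd → NoPer m wd →
    ∃ N0 : ℕ, ∀ N ≥ N0, ∀ G : A K 4, G ≠ 0 → Len m G →
      (∃ W ∈ G.coeff.support, W.toList.count 3 = dt G ∧ wt (w4 w) W = et w G ∧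
        IsLw w (sb (θ ^ N) G) (sw wd N W)) ∧
      dg w (sb (θ ^ N) G) = N * dt G * dg w θ + et w G

/-- module WFAC: (F) of section 8 and combinatorics of words -/
structure WfacFacts : Prop where
  fac : ∀ (wd : Wd 3) (N : ℕ) (W : Wd 4) (y : Wd 3), Fac y (sw wd N W) → ¬ Fac wd y →
    y.toList.length ≤ 2 * wd.toList.length + W.toList.length
  /-- a word without small periods is not a factor of a power of a short word -/
  per : ∀ (m : ℕ) (wd v : Wd 3) (k : ℕ), NoPer m wd → v.toList.length ≤ m → ¬ Fac wd (v ^ k)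
  comm : ∀ (m : ℕ) (wd v ω : Wd 3), NoPer m wd → v ≠ 1 → v.toList.length ≤ m → Fac wd ω →
    ω * v ≠ v * ω
  code : ∀ (m : ℕ) (wd v ω : Wd 3), NoPer m wd → v ≠ 1 → v.toList.length ≤ m → Fac wd ω →
    Function.Injective (FreeMonoid.lift ![v, ω] : Wd 2 →* Wd 3)
  /-- `sw` is injective on words of length at most `m` with the same number of letters `3` -/
  inj : ∀ (m N : ℕ) (wd : Wd 3) (W W' : Wd 4), NoPer m wd → 1 ≤ N → W.toList.length ≤ m →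
    W'.toList.length ≤ m → W.toList.count 3 = W'.toList.count 3 → sw wd N W = sw wd N W' → W = W'

/-- module BD: elements of bounded degree of `K⟨f,g⟩` are polynomials of bounded length -/
def BdStatement (K : Type*) [Field K] (w : Fin 3 → ℝ) : Prop :=
  ∀ C0 C : ℕ, ∃ L : ℕ, ∀ f g : A K 3, f * g ≠ g * f → ND w f g → Gd w f g → dg w g < dg w f →
    dg w f ≤ C0 * dg w g → ∀ P : A K 2, dg w (ev P f g) ≤ C * dg w g → Len L P

/-- module PBN: `t`-degree `0` against `t`-degree `≥ 1` never commutes -/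
def PbnStatement (K : Type*) [Field K] (w : Fin 3 → ℝ) : Prop :=
  ∀ (z : Fin 3 → A K 3), Fr (z 0) (z 1) (z 2) → ∀ M : ℕ, ∃ m0 : ℕ, ∀ (θ : A K 3) (wd : Wd 3),
    IsLw w θ wd → NoPer m0 wd → ∃ N0 : ℕ, ∀ N ≥ N0, ∀ H1 H2 : A K 3,
      Len M (Th z H1) → Len M (Th z H2) → dt (Th z H1) = 0 → 1 ≤ dt (Th z H2) →
      0 < dg w (TN z θ N H1) → ¬ Com w (TN z θ N H1) (TN z θ N H2)

/-- module PBA: free pairs, both of `t`-degree `≥ 1` -/
def PbaStatement (K : Type*) [Field K] (w : Fin 3 → ℝ) : Prop :=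
  ∀ (z : Fin 3 → A K 3), Fr (z 0) (z 1) (z 2) → ∀ M : ℕ, ∃ Λ m0 : ℕ, ∀ (θ : A K 3) (wd : Wd 3),
    IsLw w θ wd → NoPer m0 wd → ∃ N0 : ℕ, ∀ N ≥ N0, ∀ H1 H2 H3 : A K 3,
      Len M (Th z H1) → Len M (Th z H2) → Len M (Th z H3) → 1 ≤ dt (Th z H1) →
      1 ≤ dt (Th z H2) → ¬ Com w (TN z θ N H1) (TN z θ N H2) → ∀ P : A K 2,
      dg w (TN z θ N H3 - ev P (TN z θ N H1) (TN z θ N H2)) < dg w (TN z θ N H3) →
      ∃ P' : A K 2, Len Λ P' ∧
        dg w (TN z θ N H3 - ev P' (TN z θ N H1) (TN z θ N H2)) < dg w (TN z θ N H3)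

/-- module PBB: `t`-degrees `0` and `≥ 1` -/
def PbbStatement (K : Type*) [Field K] (w : Fin 3 → ℝ) : Prop :=
  ∀ (z : Fin 3 → A K 3), Fr (z 0) (z 1) (z 2) → ∀ M : ℕ, ∃ Λ m0 : ℕ, ∀ (θ : A K 3) (wd : Wd 3),
    IsLw w θ wd → NoPer m0 wd → ∃ N0 : ℕ, ∀ N ≥ N0, ∀ H1 H2 H3 : A K 3,
      Len M (Th z H1) → Len M (Th z H2) → Len M (Th z H3) → dt (Th z H1) = 0 →
      1 ≤ dt (Th z H2) → 0 < dg w (TN z θ N H1) → ∀ P : A K 2,
      dg w (TN z θ N H3 - ev P (TN z θ N H1) (TN z θ N H2)) < dg w (TN z θ N H3) →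
      ∃ P' : A K 2, Len Λ P' ∧
        dg w (TN z θ N H3 - ev P' (TN z θ N H1) (TN z θ N H2)) < dg w (TN z θ N H3)

/-- module PBC: good nondivisible pairs, both of `t`-degree `≥ 1` -/
def PbcStatement (K : Type*) [Field K] (w : Fin 3 → ℝ) : Prop :=
  ∀ (z : Fin 3 → A K 3), Fr (z 0) (z 1) (z 2) → ∀ M : ℕ, ∃ Λ m0 : ℕ, ∀ (θ : A K 3) (wd : Wd 3),
    IsLw w θ wd → NoPer m0 wd → ∃ N0 : ℕ, ∀ N ≥ N0, ∀ H1 H2 H3 : A K 3,
      Len M (Th z H1) → Len M (Th z H2) → Len M (Th z H3) → 1 ≤ dt (Th z H1) →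
      1 ≤ dt (Th z H2) →
      TN z θ N H1 * TN z θ N H2 ≠ TN z θ N H2 * TN z θ N H1 →
      ND w (TN z θ N H1) (TN z θ N H2) → Gd w (TN z θ N H1) (TN z θ N H2) → ∀ P : A K 2,
      dg w (TN z θ N H3 - ev P (TN z θ N H1) (TN z θ N H2)) < dg w (TN z θ N H3) →
      ∃ P' : A K 2, Len Λ P' ∧
        dg w (TN z θ N H3 - ev P' (TN z θ N H1) (TN z θ N H2)) < dg w (TN z θ N H3)

/-- module PBE: divisible pairs, both of `t`-degree `≥ 1` -/
def PbeStatement (K : Type*) [Field K] (w : Fin 3 → ℝ) : Prop :=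
  ∀ (z : Fin 3 → A K 3), Fr (z 0) (z 1) (z 2) → ∀ M : ℕ, ∃ Λ m0 : ℕ, ∀ (θ : A K 3) (wd : Wd 3),
    IsLw w θ wd → NoPer m0 wd → ∃ N0 : ℕ, ∀ N ≥ N0, ∀ H1 H2 : A K 3,
      Len M (Th z H1) → Len M (Th z H2) → 1 ≤ dt (Th z H1) → 1 ≤ dt (Th z H2) →
      Dv w (TN z θ N H1) (TN z θ N H2) →
      ∃ (c : K) (k : ℕ), k ≤ Λ ∧
        dg w (TN z θ N H1 - c • TN z θ N H2 ^ k) < dg w (TN z θ N H1)

/-- module DTZ: elements of `t`-degree `0` -/
def DtzStatement (K : Type*) [Field K] : Prop :=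
  ∀ (z : Fin 3 → A K 3), Fr (z 0) (z 1) (z 2) → ∀ H : A K 3, dt (Th z H) = 0 →
    H ∈ B (xx 1) (xx 2)

/-- module FINH: frames with two elements in `K⟨x_1, x_2⟩` -/
def FinhStatement (K : Type*) [Field K] : Prop :=
  ∀ h f g : A K 3, Fr h f g → f ∈ B (xx 1) (xx 2) → g ∈ B (xx 1) (xx 2) →
    (∃ a : K, a ≠ 0 ∧ ∃ q ∈ B (xx 1) (xx 2), h = a • xx 0 + q) ∧ B f g = B (xx 1) (xx 2)

/-! ## the tame group -/

/-- the tame group of `A K 3` -/
noncomputable def TG (K : Type*) [Field K] : Subgroup (A K 3 ≃ₐ[K] A K 3) :=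
  TAut K (xx : Fin 3 → A K 3)

/-- module REDI: inversion of `Red` -/
def RediStatement (K : Type*) [Field K] (w : Fin 3 → ℝ) : Prop :=
  ∀ V : Submodule K (A K 3), Red w V → sg w < vd w V → ∃ f g h h' : A K 3, Fr f g h ∧
    V = sp f g h ∧ Or3 w f g h ∧ h' - h ∈ B f g ∧ dg w h' < dg w h ∧ Red w (sp f g h') ∧
    vd w (sp f g h') < vd w V

/-- module TAME: tame frames are reducible -/
def TameStatement (K : Type*) [Field K] (w : Fin 3 → ℝ) : Prop :=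
  ∀ τ ∈ TG K, Red w (sp (τ (xx 0)) (τ (xx 1)) (τ (xx 2)))

/-- module TMOV: changes of frames are given by tame automorphisms -/
def TmovStatement (K : Type*) [Field K] : Prop :=
  ∀ (ψ τ : A K 3 ≃ₐ[K] A K 3) (f g h q : A K 3), τ ∈ TG K →
    sp f g h = sp (ψ (τ (xx 0))) (ψ (τ (xx 1))) (ψ (τ (xx 2))) → q ∈ B f g →
    ∃ τ' ∈ TG K, ψ (τ' (xx 0)) = f ∧ ψ (τ' (xx 1)) = g ∧ ψ (τ' (xx 2)) = h + q

/-- module FINT: the end of the proof of Theorem B -/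
def FintStatement (K : Type*) [Field K] : Prop :=
  ∀ (ψ τ : A K 3 ≃ₐ[K] A K 3) (h f g q : A K 3) (a : K), τ ∈ TG K → ψ (τ (xx 0)) = h →
    ψ (τ (xx 1)) = f → ψ (τ (xx 2)) = g → T2 f g → a ≠ 0 → q ∈ B (xx 1) (xx 2) →
    h = a • xx 0 + q → ψ ∈ TG K

/-- module PBALL: the cases PBN, PBA, PBB, PBC, PBE together -/
def PballStatement (K : Type*) [Field K] (w : Fin 3 → ℝ) : Prop :=
  ∀ (z : Fin 3 → A K 3), Fr (z 0) (z 1) (z 2) → ∀ M : ℕ, ∃ m0 : ℕ, ∀ (θ : A K 3) (wd : Wd 3),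
    IsLw w θ wd → NoPer m0 wd → ∃ N0 : ℕ, ∀ N ≥ N0, ∀ H1 H2 H3 : A K 3,
      Len M (Th z H1) → Len M (Th z H2) → Len M (Th z H3) →
      ¬ (dt (Th z H1) = 0 ∧ dt (Th z H2) = 0) →
      Fr (TN z θ N H1) (TN z θ N H2) (TN z θ N H3) →
      (ND w (TN z θ N H1) (TN z θ N H2) → Gd w (TN z θ N H1) (TN z θ N H2)) → ∀ P : A K 2,
      dg w (TN z θ N H3 - ev P (TN z θ N H1) (TN z θ N H2)) < dg w (TN z θ N H3) →
      (∃ q ∈ B H1 H2, Len m0 (Th z (H3 + q)) ∧ dg w (TN z θ N (H3 + q)) < dg w (TN z θ N H3)) ∨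
      (∃ q ∈ B H2 H3, Len m0 (Th z (H1 + q)) ∧ dg w (TN z θ N (H1 + q)) < dg w (TN z θ N H1)) ∨
      (∃ q ∈ B H1 H3, Len m0 (Th z (H2 + q)) ∧ dg w (TN z θ N (H2 + q)) < dg w (TN z θ N H2))

/-- sum of the `t`-degrees of `Y 0, Y 1, Y 2` -/
noncomputable def sdt {K : Type*} [Field K] (z : Fin 3 → A K 3) (Y : Fin 3 → A K 3) : ℕ :=
  dt (Th z (Y 0)) + dt (Th z (Y 1)) + dt (Th z (Y 2))

/-- sum of the weights `et` of `Y 0, Y 1, Y 2` -/
noncomputable def sett {K : Type*} [Field K] (w : Fin 3 → ℝ) (z : Fin 3 → A K 3)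
    (Y : Fin 3 → A K 3) : ℝ :=
  et w (Th z (Y 0)) + et w (Th z (Y 1)) + et w (Th z (Y 2))

/-- module MINI: existence of the minimal tame automorphism -/
def MiniStatement (K : Type*) [Field K] (w : Fin 3 → ℝ) : Prop :=
  ∀ (z : Fin 3 → A K 3) (ψ : A K 3 ≃ₐ[K] A K 3), ∃ τ ∈ TG K, ∀ τ' ∈ TG K,
    sdt z (fun i => ψ (τ (xx i))) < sdt z (fun i => ψ (τ' (xx i))) ∨
    (sdt z (fun i => ψ (τ (xx i))) = sdt z (fun i => ψ (τ' (xx i))) ∧
      sett w z (fun i => ψ (τ (xx i))) ≤ sett w z (fun i => ψ (τ' (xx i))))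

/-- module CASEA: frames with two elements of `t`-degree `0` -/
def CaseaStatement (K : Type*) [Field K] : Prop :=
  ∀ (ψ τ : A K 3 ≃ₐ[K] A K 3) (H1 H2 H3 : A K 3), τ ∈ TG K →
    sp H1 H2 H3 = sp (ψ (τ (xx 0))) (ψ (τ (xx 1))) (ψ (τ (xx 2))) →
    dt (Th (fun i => ψ.symm (xx i)) H1) = 0 → dt (Th (fun i => ψ.symm (xx i)) H2) = 0 →
    ψ ∈ TG K

/-- module GENW: generic weights exist -/
def GenwStatement : Prop := ∃ w : Fin 3 → ℝ, Gen w ∧ w 2 < w 1 ∧ w 1 < w 0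

/-- module PHI: the conjugates in coordinates -/
def PhiStatement (K : Type*) [Field K] : Prop :=
  ∀ (ψ φ : A K 3 ≃ₐ[K] A K 3) (f : A K 3) (N : ℕ), φ (xx 0) = xx 0 + f ^ N → φ (xx 1) = xx 1 →
    φ (xx 2) = xx 2 → f ∈ B (xx 1) (xx 2) →
    ∀ H : A K 3, ψ.symm (φ H) = TN (fun i => ψ.symm (xx i)) (ψ.symm f) N H

/-- module EIGHT: the argument of section 8 -/
def EightStatement (K : Type*) [Field K] : Prop :=
  ∀ ψ : A K 3 ≃ₐ[K] A K 3, ψ ∉ TG K → ∃ f ∈ B (xx 1 : A K 3) (xx 2), ∃ N0 : ℕ, ∀ N ≥ N0,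
    ∀ φ : A K 3 ≃ₐ[K] A K 3, φ (xx 0) = xx 0 + f ^ N → φ (xx 1) = xx 1 → φ (xx 2) = xx 2 →
      ψ⁻¹ * φ * ψ ∉ TG K

/-- module ANICK: Anick's automorphism is wild -/
def AnickStatement (K : Type*) [Field K] : Prop :=
  ∀ φ : A K 3 ≃ₐ[K] A K 3, φ (xx 0) = xx 0 + xx 2 * (xx 0 * xx 2 - xx 2 * xx 1) →
    φ (xx 1) = xx 1 + (xx 0 * xx 2 - xx 2 * xx 1) * xx 2 → φ (xx 2) = xx 2 → φ ∉ TG K

end Pool.Agent.Lib.MP_e1f7e2_al.FA
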